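import Pool.Agent.W120.WM.Defs
import Pool.Agent.H370R2.Rect

/-!
# T_RES: residue theorem on a rectangle for g / F, F entire with simple zeros (helper29)
-/

set_option autoImplicit false
set_option maxHeartbeats 1000000

open Complex Filter Topology Set MeasureTheory

namespace Pool.Agent.W29.WM

open Pool.Agent.W120.WM H370

theorem dsl {h : ℂ → ℂ} (hh : Differentiable ℂ h) (p : ℂ) : Differentiable ℂ (dslope h p) := by
  have := (Complex.differentiableOn_dslope (s := Set.univ) (c := p) (f := h) univ_mem).2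
    hh.differentiableOn
  exact differentiableOn_univ.1 this

theorem fac {h : ℂ → ℂ} {p : ℂ} (h0 : h p = 0) (s : ℂ) : h s = (s - p) * dslope h p s := by
  have h1 := sub_smul_dslope h p s
  rw [h0, sub_zero, smul_eq_mul] at h1
  exact h1.symm

theorem aux {a b c d : ℝ} (hab : a < b) (hcd : c < d) (n : ℕ) : ∀ (F g : ℂ → ℂ) (Z : Finset ℂ),
    Z.card = n → Differentiable ℂ F → Differentiable ℂ g →
    (∀ s ∈ Icc a b ×ℂ Icc c d, F s = 0 ↔ s ∈ Z) →
    (∀ ρ ∈ Z, ρ ∈ Ioo a b ×ℂ Ioo c d ∧ deriv F ρ ≠ 0) →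
    RI a b c d (fun s => g s / F s) = 2 * Real.pi * I * ∑ ρ ∈ Z, g ρ / deriv F ρ := by
  induction n with
  | zero =>
    intro F g Z hZ hF hg hz _
    rw [Finset.card_eq_zero] at hZ
    subst hZ
    rw [Finset.sum_empty, mul_zero]
    apply RI_zero hab.le hcd.le
    intro s hs
    have h0 : F s ≠ 0 := fun h => by simpa using (hz s hs).1 h
    exact ((hg s).div (hF s) h0).differentiableWithinAt
  | succ n ih =>
    intro F g Z hZ hF hg hz hz2
    obtain ⟨ρ, hρ⟩ : Z.Nonempty := Finset.card_pos.1 (by omega)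
    obtain ⟨hρI, hρd⟩ := hz2 ρ hρ
    have hρK : ρ ∈ Icc a b ×ℂ Icc c d :=
      ⟨Ioo_subset_Icc_self hρI.1, Ioo_subset_Icc_self hρI.2⟩
    have hFρ : F ρ = 0 := (hz ρ hρK).2 hρ
    set G : ℂ → ℂ := dslope F ρ with hG
    have hGd : Differentiable ℂ G := dsl hF ρ
    have hFG : ∀ s, F s = (s - ρ) * G s := fun s => fac hFρ s
    have hGρ : G ρ = deriv F ρ := dslope_same F ρ
    have hFfun : F = fun s => (s - ρ) * G s := funext hFG
    have hderiv : ∀ s, deriv F s = 1 * G s + (s - ρ) * deriv G s := by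
      intro s
      have h1 : HasDerivAt (fun s : ℂ => (s - ρ) * G s) (1 * G s + (s - ρ) * deriv G s) s :=
        ((hasDerivAt_id s).sub_const ρ).mul (hGd s).hasDerivAt
      rw [← hFfun] at h1
      exact h1.deriv
    have hz' : ∀ s ∈ Icc a b ×ℂ Icc c d, G s = 0 ↔ s ∈ Z.erase ρ := by
      intro s hs
      rw [Finset.mem_erase]
      by_cases hsρ : s = ρ
      · subst hsρ
        simp only [ne_eq, not_true_eq_false, false_and, iff_false]
        rw [hGρ]; exact hρd
      · have h1 : s - ρ ≠ 0 := sub_ne_zero.2 hsρ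
        have h2 := hz s hs
        rw [hFG s, mul_eq_zero] at h2
        constructor
        · intro h; exact ⟨hsρ, h2.1 (Or.inr h)⟩
        · rintro ⟨-, h⟩; exact (h2.2 h).resolve_left h1
    have hσ : ∀ σ ∈ Z.erase ρ, σ ∈ Ioo a b ×ℂ Ioo c d ∧ G σ = 0 ∧ σ - ρ ≠ 0 ∧
        deriv F σ = (σ - ρ) * deriv G σ ∧ deriv G σ ≠ 0 := by
      intro σ hs
      obtain ⟨h1, h2⟩ := Finset.mem_erase.1 hs
      obtain ⟨h3, h4⟩ := hz2 σ h2
      have h5 : G σ = 0 := (hz' σ ⟨Ioo_subset_Icc_self h3.1, Ioo_subset_Icc_self h3.2⟩).2 hs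
      have h6 : deriv F σ = (σ - ρ) * deriv G σ := by rw [hderiv, h5]; ring
      refine ⟨h3, h5, sub_ne_zero.2 h1, h6, ?_⟩
      intro h7
      rw [h6, h7, mul_zero] at h4
      exact h4 rfl
    have hBK := Bd_sub hab.le hcd.le
    have hBρ : ∀ s ∈ Bd a b c d, s ≠ ρ := fun s hs he => Bd_not_Ioo hs (he ▸ hρI)
    have hBG : ∀ s ∈ Bd a b c d, G s ≠ 0 := by
      intro s hs h0
      exact Bd_not_Ioo hs (hσ s ((hz' s (hBK hs)).1 h0)).1
    have hGρ0 : G ρ ≠ 0 := by rw [hGρ]; exact hρd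
    set g1 : ℂ → ℂ := fun s => g s - g ρ / G ρ * G s with hg1
    have hg1d : Differentiable ℂ g1 := hg.sub (hGd.const_mul _)
    have hg1ρ : g1 ρ = 0 := by
      rw [hg1]
      show g ρ - g ρ / G ρ * G ρ = 0
      rw [div_mul_cancel₀ _ hGρ0, sub_self]
    have hg2d := dsl hg1d ρ
    have hg2 : ∀ s, g s = (s - ρ) * dslope g1 ρ s + g ρ / G ρ * G s := by
      intro s
      rw [← fac hg1ρ s, hg1]
      show g s = g s - g ρ / G ρ * G s + g ρ / G ρ * G s
      ring
    have IH := ih G (dslope g1 ρ) (Z.erase ρ) (by rw [Finset.card_erase_of_mem hρ, hZ]; rfl) hGd hg2d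
      hz' (fun σ hs => ⟨(hσ σ hs).1, (hσ σ hs).2.2.2.2⟩)
    have hsplit : RI a b c d (fun s => g s / F s) =
        RI a b c d (fun s => dslope g1 ρ s / G s + g ρ / G ρ * (s - ρ)⁻¹) := by
      apply RI_congr hab.le hcd.le
      intro s hs
      have h1 : s - ρ ≠ 0 := sub_ne_zero.2 (hBρ s hs)
      have h2 := hBG s hs
      show g s / F s = dslope g1 ρ s / G s + g ρ / G ρ * (s - ρ)⁻¹
      rw [hFG s]
      rw [hg2 s]
      field_simp
    have c1 : ContinuousOn (fun s => dslope g1 ρ s / G s) (Bd a b c d) :=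
      hg2d.continuous.continuousOn.div hGd.continuous.continuousOn hBG
    have c2 : ContinuousOn (fun s : ℂ => (s - ρ)⁻¹) (Bd a b c d) := by
      apply ContinuousOn.inv₀ (by fun_prop)
      intro s hs
      exact sub_ne_zero.2 (hBρ s hs)
    rw [hsplit, RI_add hab.le hcd.le (g := fun s => g ρ / G ρ * (s - ρ)⁻¹) c1
      (continuousOn_const.mul c2), RI_const_mul, RI_inv hρI, IH, ← Finset.add_sum_erase Z _ hρ]
    have hsum : ∑ σ ∈ Z.erase ρ, dslope g1 ρ σ / deriv G σ = ∑ σ ∈ Z.erase ρ, g σ / deriv F σ := by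
      refine Finset.sum_congr rfl fun σ hs => ?_
      obtain ⟨-, h1, h2, h3, h4⟩ := hσ σ hs
      rw [h3, hg2 σ, h1, mul_zero, add_zero, mul_div_mul_left _ _ h2]
    rw [hsum, hGρ]
    ring

theorem t_res : T_RES := by
  intro F g Z a b c d hab hcd hF hg hz hz2
  exact aux hab hcd Z.card F g Z rfl hF hg hz hz2

end Pool.Agent.W29.WM
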